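import Mathlib
import Pool.Agent.N820.SU.All
import Pool.Agent.Y706.CH.Gon

/-!
# Preperiodic points of bounded gonality: all rational maps which are determined by their
multipliers up to finitely many choices
-/

namespace Pool.Agent.Results.MP_62a0c3_nt.FiniteMultiplierFibre

open Polynomial

universe u v

/-- The self-map of the projective line `K ∪ {∞}`, where `none` is `∞`, given by the rational
function `p / q`, where `p` and `q` are coprime and `d` is the larger of their degrees: it sends
`x` to `p(x) / q(x)`, or to `∞` when `q(x) = 0`, and it sends `∞` to the quotient of the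
coefficients of degree `d`, or to `∞` when that of `q` is zero. -/
noncomputable def mapP1 {K : Type*} [Field K] (p q : K[X]) (d : ℕ) : Option K → Option K
  | some x => by classical exact if q.eval x = 0 then none else some (p.eval x / q.eval x)
  | none => by classical exact if q.coeff d = 0 then none else some (p.coeff d / q.coeff d)

/-- The Möbius transformation `x ↦ (a x + b) / (c x + e)` of the projective line `K ∪ {∞}`. -/
noncomputable def moebius {K : Type*} [Field K] (a b c e : K) : Option K → Option K
  | some x => by classical exact if c * x + e = 0 then none else some ((a * x + b) / (c * x + e))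
  | none => by classical exact if c = 0 then none else some (a / c)

/-- `l` is a multiplier of the `n`-th iterate of the map `f = p / q` of degree `d`: for some Möbius
transformation `φ` and some coprime polynomials `P, Q` with larger degree `d ^ n` and `P(0) = 0`
one has `(P / Q) ∘ φ = φ ∘ f ^ n` on the projective line, and `l = P'(0) / Q(0)`. So `φ⁻¹(0)` is a
fixed point of the `n`-th iterate and `l` is the derivative of the iterate at this fixed point, in
the coordinate `φ`. -/
def IsMultiplier {K : Type*} [Field K] (p q : K[X]) (d n : ℕ) (l : K) : Prop :=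
  ∃ a b c e : K, a * e - b * c ≠ 0 ∧ ∃ P Q : K[X], IsCoprime P Q ∧
    max P.natDegree Q.natDegree = d ^ n ∧ P.coeff 0 = 0 ∧ l = P.coeff 1 / Q.coeff 0 ∧
    ∀ z, mapP1 P Q (d ^ n) (moebius a b c e z) = moebius a b c e ((mapP1 p q d)^[n] z)

/-- The maps `p / q` and `u / w` of degree `d` have the same set of multipliers for the `n`-th
iterate, for all `n` with `1 ≤ n ≤ B`. -/
def SameMultipliers {K : Type*} [Field K] (p q u w : K[X]) (d B : ℕ) : Prop :=
  ∀ n, 1 ≤ n → n ≤ B → ∀ l, IsMultiplier u w d n l ↔ IsMultiplier p q d n l

/-- The maps `p / q` and `u / w` of degree `d` are conjugate by a Möbius transformation. -/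
def AreConjugate {K : Type*} [Field K] (p q u w : K[X]) (d : ℕ) : Prop :=
  ∃ a b c e : K, a * e - b * c ≠ 0 ∧
    ∀ z, mapP1 u w d (moebius a b c e z) = moebius a b c e (mapP1 p q d z)

/-- The multiplier fibre of the map `p / q` of degree `d` is finite at level `B`: the rational maps
of degree `d` over `K` which have the same multipliers as `p / q` for all iterates up to the
`B`-th form at most `B` conjugacy classes (that is, among any `B + 1` of them there are two which
are conjugate). -/
def FiniteFibre {K : Type*} [Field K] (p q : K[X]) (d B : ℕ) : Prop :=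
  ∀ u w : Fin (B + 1) → K[X], (∀ i, (IsCoprime (u i) (w i) ∧
    max (u i).natDegree (w i).natDegree = d) ∧ SameMultipliers p q (u i) (w i) d B) →
    ∃ i j, i ≠ j ∧ AreConjugate (u i) (w i) (u j) (w j) d

/-- With `φ(x) = (a x + b) / (c x + e)`, the map `p / q` of degree `d` satisfies
`φ ∘ (p / q) = (u / w) ∘ φ` for some `a, b, c, e` in `F` with `a e ≠ b c` and some polynomials
`u, w` of degree at most `d`, not both zero, with coefficients algebraic over `k`; the equation is
written with denominators cleared. -/
def ConjAlg (k : Type*) {F : Type*} [Field k] [Field F] [Algebra k F] (p q : F[X])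
    (d : ℕ) : Prop :=
  ∃ a b c e : F, a * e - b * c ≠ 0 ∧ ∃ u w : F[X], (u ≠ 0 ∨ w ≠ 0) ∧
    u.natDegree ≤ d ∧ w.natDegree ≤ d ∧ (∀ n, IsAlgebraic k (u.coeff n)) ∧
    (∀ n, IsAlgebraic k (w.coeff n)) ∧
    (C a * p + C b * q) * ∑ i ∈ Finset.range (d + 1),
      C (w.coeff i) * (C a * X + C b) ^ i * (C c * X + C e) ^ (d - i) =
    (C c * p + C e * q) * ∑ i ∈ Finset.range (d + 1),
      C (u.coeff i) * (C a * X + C b) ^ i * (C c * X + C e) ^ (d - i)

/-- The map `p / q` of degree `d` over `K` is isotrivial: over an algebraic closure of `K` it is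
conjugate to a map with coefficients algebraic over `k`. -/
def Isotrivial (k : Type*) {K : Type*} [Field k] [Field K] [Algebra k K] (p q : K[X])
    (d : ℕ) : Prop :=
  ConjAlg k (p.map (algebraMap K (AlgebraicClosure K))) (q.map (algebraMap K (AlgebraicClosure K)))
    d

/-- The field `E` over `k` is a finite extension of `k(t)` of degree at most `D` for some `t`
transcendental over `k`: it is the function field of a curve over `k` of gonality at most `D`. -/
def GonalityLE (k E : Type*) [Field k] [Field E] [Algebra k E] (D : ℕ) : Prop :=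
  ∃ t : E, Transcendental k t ∧ FiniteDimensional (IntermediateField.adjoin k {t}) E ∧
    Module.finrank (IntermediateField.adjoin k {t}) E ≤ D

/-- The set `Preper(f, D)` for the rational map `f = p / q` of degree `d` over `K`: the points `z`
of the projective line over an algebraic closure of `K` with finite orbit for which the field
`K(z)` has gonality at most `D` over `k`. -/
def Preper (k : Type*) {K : Type*} [Field k] [Field K] [Algebra k K] (p q : K[X]) (d D : ℕ) :
    Set (Option (AlgebraicClosure K)) :=
  {z | (Set.range fun m : ℕ => (mapP1 (p.map (algebraMap K (AlgebraicClosure K)))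
      (q.map (algebraMap K (AlgebraicClosure K))) d)^[m] z).Finite ∧
    GonalityLE k (IntermediateField.adjoin K {x : AlgebraicClosure K | z = some x}) D}

lemma e_map {K : Type*} [Field K] (p q : K[X]) (d : ℕ) :
    Pool.Agent.N820.SU.mapP1 p q d = mapP1 p q d := by
  funext z
  cases z <;> rfl

lemma e_mob {K : Type*} [Field K] (a b c e : K) :
    Pool.Agent.N820.SU.mob a b c e = moebius a b c e := by
  funext z
  cases z <;> rfl

lemma e_mult {K : Type*} [Field K] (p q : K[X]) (d n : ℕ) (l : K) :
    Pool.Agent.N820.SU.IsMult p q d n l ↔ IsMultiplier p q d n l := by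
  unfold Pool.Agent.N820.SU.IsMult IsMultiplier
  simp only [e_map, e_mob]

lemma e_few {K : Type*} [Field K] (p q : K[X]) (d B : ℕ) (h : FiniteFibre p q d B) :
    Pool.Agent.N820.SU.Few p q d B := by
  intro u w huw
  obtain ⟨i, j, hij, hc⟩ := h u w fun i => ⟨(huw i).1, fun n h1 h2 l => by
    rw [← e_mult, ← e_mult]
    exact (huw i).2 n h1 h2 l⟩
  refine ⟨i, j, hij, ?_⟩
  unfold Pool.Agent.N820.SU.ConjP1
  simp only [e_map, e_mob]
  exact hc

lemma e_rat {K : Type*} [Field K] (p q : K[X]) (d : ℕ) :
    mapP1 p q d = Pool.Agent.W277.UH.ratP1 p q d := by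
  funext z
  cases z <;> rfl

open Pool.Agent.N820.SU in
lemma conj_map {K K' : Type u} [Field K] [Field K'] (σ : K ≃+* K') (d : ℕ) (p q u w : K[X])
    (h : ConjP1 p q u w d) : ConjP1 (p.map (σ : K →+* K')) (q.map (σ : K →+* K'))
      (u.map (σ : K →+* K')) (w.map (σ : K →+* K')) d := by
  obtain ⟨a, b, c, e, hdet, hz⟩ := h
  refine ⟨σ a, σ b, σ c, σ e, ?_, ?_⟩
  · rw [← map_mul, ← map_mul, ← map_sub]
    exact (map_ne_zero σ).mpr hdet
  · intro z'
    obtain ⟨z, rfl⟩ : ∃ z : Option K, z.map (σ : K →+* K') = z' := by
      refine ⟨z'.map (σ.symm : K' →+* K), ?_⟩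
      cases z' with
      | none => rfl
      | some x => simp
    have h1 : ∀ z : Option K, mob (σ a) (σ b) (σ c) (σ e) (z.map (σ : K →+* K')) =
        (mob a b c e z).map (σ : K →+* K') :=
      (Mob.t_MAP K K' (σ : K →+* K') d).2.1 a b c e
    have h2 := (Mob.t_MAP K K' (σ : K →+* K') d).1 p q
    have h3 := (Mob.t_MAP K K' (σ : K →+* K') d).1 u w
    rw [h1, h2, h3, hz, h1]

open Pool.Agent.N820.SU in
lemma few_map {K K' : Type u} [Field K] [Field K'] (σ : K ≃+* K') (d B : ℕ) (p q : K[X])
    (h : Few p q d B) : Few (p.map (σ : K →+* K')) (q.map (σ : K →+* K')) d B := by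
  intro u w huw
  have hback : ∀ g : K'[X], (g.map (σ.symm : K' →+* K)).map (σ : K →+* K') = g := by
    intro g
    ext i
    simp
  obtain ⟨i, j, hij, hc⟩ := h (fun i => (u i).map (σ.symm : K' →+* K))
    (fun i => (w i).map (σ.symm : K' →+* K)) fun i => by
      refine ⟨(Mob.t_MAP K' K (σ.symm : K' →+* K) d).2.2.1 _ _ (huw i).1, ?_⟩
      intro n hn1 hnB l
      rw [← Alg.isMult_map_iff Mob.t_MAP σ d p q n l, ← (huw i).2 n hn1 hnB (σ l),
        ← Alg.isMult_map_iff Mob.t_MAP σ d _ _ n l, hback, hback]
  refine ⟨i, j, hij, ?_⟩
  have h1 := conj_map σ d _ _ _ _ hc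
  rw [hback, hback, hback, hback] at h1
  exact h1

/-- There is a function `N` such that the following holds for every field `k` of characteristic
zero (in particular for the field of complex numbers), every field `K` over `k` (in particular the
function field of a curve over `k`) and all `D`, `B` and `d ≥ 2`. Let `f = p / q` be a rational map
of degree `d` over `K` which is not isotrivial and whose multiplier fibre over an algebraic closure
of `K` is finite at level `B`. Then `Preper(f, D)` has at most `N(D, d, B)` points. (By the rigidity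
theorems of McMullen and, for the maps with the multipliers of a flexible Lattès map, of Ji and Xie
and of Huguin, for every `d` there is a level `B` which works for all maps of degree `d` except the
flexible Lattès maps; this is not used here.) -/
theorem result : ∃ N : ℕ → ℕ → ℕ → ℕ, ∀ (k : Type v) (K : Type u) [Field k] [CharZero k]
    [Field K] [Algebra k K] (D d B : ℕ), 2 ≤ d →
    ∀ p q : K[X], IsCoprime p q → max p.natDegree q.natDegree = d → ¬ Isotrivial k p q d →
    FiniteFibre (p.map (algebraMap K (AlgebraicClosure K)))
      (q.map (algebraMap K (AlgebraicClosure K))) d B →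
    (Preper k p q d D).encard ≤ ((N D d B : ℕ) : ℕ∞) := by
  obtain ⟨N, hN⟩ := Pool.Agent.N820.SU.All.subp.{u, v}
  refine ⟨fun D d B => (N D 1 d B + 1) * ((N D 1 d B + 1) * (2 * d ^ (N D 1 d B) + 1)), ?_⟩
  intro k K _ _ _ _ D d B hd p q hco hmax hiso hfin
  have hP : Preper k p q d D = {z : Option (AlgebraicClosure K) | (Set.range fun m : ℕ =>
        (Pool.Agent.W277.UH.ratP1 (p.map (algebraMap K (AlgebraicClosure K)))
          (q.map (algebraMap K (AlgebraicClosure K))) d)^[m] z).Finite ∧
      ∃ t : IntermediateField.adjoin K {x | z = some x}, Transcendental k t ∧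
        FiniteDimensional (IntermediateField.adjoin k {t})
          (IntermediateField.adjoin K {x | z = some x}) ∧
        Module.finrank (IntermediateField.adjoin k {t})
          (IntermediateField.adjoin K {x | z = some x}) ≤ D} := by
    unfold Preper
    rw [e_rat]
    rfl
  rw [hP]
  refine Pool.Agent.Y706.CH7.gonc D d (N D 1 d B) hd p q hco hmax ?_
  intro E hE t ht hfd hD
  have hkEF : IsScalarTower k E (AlgebraicClosure K) := IsScalarTower.of_algebraMap_eq fun x => rfl
  have hmm : ∀ g : K[X], (g.map (algebraMap K E)).map (algebraMap E (AlgebraicClosure K)) =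
      g.map (algebraMap K (AlgebraicClosure K)) := by
    intro g
    rw [Polynomial.map_map, ← IsScalarTower.algebraMap_eq]
  -- the isomorphism of the two algebraic closures
  have hclo : IsAlgClosure E (AlgebraicClosure K) := by
    refine ⟨inferInstance, ?_⟩
    exact Algebra.IsAlgebraic.tower_top (K := K) E
  let σ : AlgebraicClosure K ≃ₐ[E] AlgebraicClosure E :=
    IsAlgClosure.equiv E (AlgebraicClosure K) (AlgebraicClosure E)
  have hσ : ∀ g : K[X], (g.map (algebraMap K (AlgebraicClosure K))).map
      ((σ : AlgebraicClosure K ≃+* AlgebraicClosure E) :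
        AlgebraicClosure K →+* AlgebraicClosure E) =
      (g.map (algebraMap K E)).map (algebraMap E (AlgebraicClosure E)) := by
    intro g
    rw [← hmm, Polynomial.map_map _ _ (g.map (algebraMap K E))]
    congr 1
    ext x
    exact σ.commutes x
  have hco' : IsCoprime (p.map (algebraMap K E)) (q.map (algebraMap K E)) :=
    hco.map (Polynomial.mapRingHom (algebraMap K E))
  have hmax' := Pool.Agent.Y706.CH7.deg_map (F := E) p q d hmax
  have hfew : Pool.Agent.N820.SU.Few ((p.map (algebraMap K E)).map
      (algebraMap E (AlgebraicClosure E))) ((q.map (algebraMap K E)).map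
      (algebraMap E (AlgebraicClosure E))) d B := by
    have h := few_map (σ : AlgebraicClosure K ≃+* AlgebraicClosure E) d B _ _
      (e_few _ _ _ _ hfin)
    rw [hσ, hσ] at h
    exact h
  have hiso' : ¬ Pool.Agent.N820.SU.ConjAlg k ((p.map (algebraMap K E)).map
      (algebraMap E (AlgebraicClosure E))) ((q.map (algebraMap K E)).map
      (algebraMap E (AlgebraicClosure E))) d := by
    intro h
    apply hiso
    let τ : AlgebraicClosure E →ₐ[k] AlgebraicClosure K :=
      (σ.symm : AlgebraicClosure E →ₐ[E] AlgebraicClosure K).restrictScalars k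
    have h1 := Pool.Agent.Y31.BI.isoAlg_map τ h
    have h2 : ∀ g : K[X], ((g.map (algebraMap K E)).map (algebraMap E (AlgebraicClosure E))).map
        (τ : AlgebraicClosure E →+* AlgebraicClosure K) =
        g.map (algebraMap K (AlgebraicClosure K)) := by
      intro g
      rw [Polynomial.map_map _ _ (g.map (algebraMap K E)), ← hmm]
      congr 1
      ext x
      exact σ.symm.commutes x
    rw [h2, h2] at h1
    exact h1
  have h := hN k E t ht hfd D 1 d B hD hd (p.map (algebraMap K E)) (q.map (algebraMap K E))
    ⟨hco', hmax'⟩ hiso' hfew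
  -- the points of the projective line over `E` are points of degree one
  refine le_trans ?_ h
  have hinj : Function.Injective (Option.map (algebraMap E (AlgebraicClosure E))) :=
    Option.map_injective (algebraMap E (AlgebraicClosure E)).injective
  rw [← hinj.encard_image]
  refine Set.encard_le_encard ?_
  rintro _ ⟨z, hz, rfl⟩
  refine ⟨?_, ?_⟩
  · have h1 : ∀ m : ℕ, (Pool.Agent.N820.SU.mapP1 ((p.map (algebraMap K E)).map
        (algebraMap E (AlgebraicClosure E))) ((q.map (algebraMap K E)).map
        (algebraMap E (AlgebraicClosure E))) d)^[m]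
          (z.map (algebraMap E (AlgebraicClosure E))) =
        ((Pool.Agent.N820.SU.mapP1 (p.map (algebraMap K E)) (q.map (algebraMap K E))
          d)^[m] z).map (algebraMap E (AlgebraicClosure E)) := fun m =>
      Pool.Agent.N820.SU.Alg.iter_map Pool.Agent.N820.SU.Mob.t_MAP
        (algebraMap E (AlgebraicClosure E)) d _ _ m z
    have hz' : (Set.range fun m : ℕ => (Pool.Agent.N820.SU.mapP1 (p.map (algebraMap K E))
        (q.map (algebraMap K E)) d)^[m] z).Finite := by
      rw [e_map, e_rat]
      exact hz
    refine (hz'.image (Option.map (algebraMap E (AlgebraicClosure E)))).subset ?_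
    rintro _ ⟨m, rfl⟩
    exact ⟨_, ⟨m, rfl⟩, (h1 m).symm⟩
  · intro x hx
    cases z with
    | none => simp at hx
    | some y =>
      have h1 : algebraMap E (AlgebraicClosure E) y = x := Option.some_injective _ hx
      rw [← h1, minpoly.eq_X_sub_C]
      exact (natDegree_X_sub_C _).le

end Pool.Agent.Results.MP_62a0c3_nt.FiniteMultiplierFibre
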